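import Pool.Agent.R902.TriSum

namespace Pool.Agent.Results.MP_ec79a8_nt.PartialSums

open Finset Pool.Agent.R902

/-- `a(n) = ∑_{j=0}^n C(n,j) C(n-j,j) C(n+j,j)`. -/
def a (n : ℕ) : ℕ := ∑ j ∈ range (n + 1), n.choose j * (n - j).choose j * (n + j).choose j

/-- For every prime `p ≡ 2 (mod 3)`, with `m = (p+1)/3`, the numerator of
`a(0) + ... + a(p-1) - 2p / C(2m,m)` is divisible by `p^2`. -/
theorem result (p : ℕ) (hp : p.Prime) (h3 : p % 3 = 2) :
    (p : ℤ) ^ 2 ∣ ((∑ k ∈ range p, (a k : ℚ)) -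
      2 * (p : ℚ) / ((2 * ((p + 1) / 3)).choose ((p + 1) / 3) : ℚ)).num := by
  have hpf : Fact p.Prime := ⟨hp⟩
  have ha : ∀ k, a k = TriSum.a k := by
    intro k
    rw [a, TriSum.a]
    refine Finset.sum_congr rfl fun j _ => ?_
    ring
  rcases Nat.lt_or_ge p 5 with h5 | h5
  · have h2 : p = 2 := by
      have := hp.two_le
      interval_cases p
      · rfl
      · omega
      · omega
    subst h2
    have h0 : ((∑ k ∈ range 2, (a k : ℚ)) - 2 * ((2 : ℕ) : ℚ) /
        ((2 * ((2 + 1) / 3)).choose ((2 + 1) / 3) : ℚ)) = 0 := by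
      simp [a, Finset.sum_range_succ]
      norm_num
    rw [h0]
    simp
  · obtain ⟨m, hm⟩ : ∃ m, p + 1 = 3 * m := ⟨(p + 1) / 3, by omega⟩
    have hm3 : (p + 1) / 3 = m := by omega
    rw [hm3]
    have h1 := TriSum.dvd_two p m hm h5
    have hs : ((∑ k ∈ range p, TriSum.a k : ℕ) : ℚ) = ∑ k ∈ range p, (a k : ℚ) := by
      push_cast
      refine Finset.sum_congr rfl fun k _ => ?_
      rw [ha]
    rw [← hs]
    have hcb : (2 * m).choose m = m.centralBinom := rfl
    rw [hcb]
    set s := ∑ k ∈ range p, TriSum.a k with hsdef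
    set q : ℚ := (s : ℚ) - 2 * (p : ℚ) / (m.centralBinom : ℚ) with hq
    have hc0 : (m.centralBinom : ℚ) ≠ 0 := by
      exact_mod_cast (Nat.centralBinom_pos m).ne'
    have h2 : q * (m.centralBinom : ℚ) = (((m.centralBinom : ℤ) * (s : ℤ) - 2 * p : ℤ) : ℚ) := by
      rw [hq]
      push_cast
      field_simp
    have h3 : q.num * (m.centralBinom : ℤ) = ((m.centralBinom : ℤ) * (s : ℤ) - 2 * p) * q.den := by
      have h4 : (q.num : ℚ) = q * q.den := (Rat.mul_den_eq_num _).symm
      have h5 : ((q.num * (m.centralBinom : ℤ) : ℤ) : ℚ)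
          = ((((m.centralBinom : ℤ) * (s : ℤ) - 2 * p) * q.den : ℤ) : ℚ) := by
        rw [Int.cast_mul, Int.cast_mul, ← h2, h4]
        push_cast
        ring
      exact_mod_cast h5
    have h6 : (p : ℤ) ^ 2 ∣ q.num * (m.centralBinom : ℤ) := by
      rw [h3]
      exact Dvd.dvd.mul_right h1 _
    have h7 : IsCoprime ((p : ℤ) ^ 2) (m.centralBinom : ℤ) := by
      apply IsCoprime.pow_left
      rw [Nat.isCoprime_iff_coprime]
      refine (Nat.Prime.coprime_iff_not_dvd hp).2 (fun h => ?_)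
      have h8 : p ∣ (2 * m).factorial := by
        have h9 := Nat.choose_mul_factorial_mul_factorial (show m ≤ 2 * m by omega)
        rw [← h9, hcb]
        exact Dvd.dvd.mul_right (Dvd.dvd.mul_right h _) _
      have := (Nat.Prime.dvd_factorial hp).1 h8
      omega
    exact h7.dvd_of_dvd_mul_right h6

end Pool.Agent.Results.MP_ec79a8_nt.PartialSums
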